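import Pool.Agent.Helper6.OL.SWAP

/-! # OL: parts ORE, GAM, INT -/

set_option autoImplicit false

namespace Pool.Agent.Helper6.OL

open Pool.Agent.Helper40.OL

/-! ### ORE -/

lemma K_mul_Fo {n N : ℕ} {g : E} (hg : Fo n N g) : ∀ k ∈ K n, Fo n N (k * g) := by
  induction hg with
  | base h => exact fun k hk => Fo.base (mul_mem hk h)
  | @step n N i g hi h ih =>
    intro k hk
    have e : k * (tau i * g) = tau i * (((tau i)⁻¹ * k * tau i) * g) := by group
    rw [e]
    exact Fo.step hi (ih _ (conj_K i hk))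

lemma Fo_one (n : ℕ) : Fo n n 1 := Fo.base (one_mem _)

lemma Fo_tau {n i : ℕ} (hi : i < n) : Fo n (n + 1) (tau i) := by
  have := Fo.step hi (Fo_one (n + 1))
  rwa [mul_one] at this

lemma Fo_mul {n N L : ℕ} {p q : E} (hp : Fo n N p) (hq : Fo N L q) : Fo n L (p * q) := by
  induction hp with
  | base h => exact K_mul_Fo hq _ h
  | step hi h ih =>
    rw [mul_assoc]
    exact Fo.step hi (ih hq)

lemma Fo_mul_K {n N : ℕ} {p k : E} (hp : Fo n N p) (hk : k ∈ K N) : Fo n N (p * k) :=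
  Fo_mul hp (Fo.base hk)

lemma ore_tau {n N : ℕ} {p : E} (hp : Fo n N p) : ∀ i < n,
    ∃ L p' q', Fo N L p' ∧ Fo (n + 1) L q' ∧ p * p' = tau i * q' := by
  induction hp with
  | @base n g h =>
    intro i hi
    exact ⟨n + 1, tau i, (tau i)⁻¹ * g * tau i, Fo_tau hi, Fo.base (conj_K i h), by group⟩
  | @step n N j p1 hj h ih =>
    intro i hi
    rcases lt_trichotomy i j with hij | hij | hij
    · obtain ⟨L, p', q', hp', hq', e⟩ := ih i (by omega)
      obtain ⟨k, hk, hkk⟩ := swap_K (n := n) hij hj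
      refine ⟨L, p', tau (j + 1) * (k⁻¹ * q'), hp', ?_, ?_⟩
      · exact Fo.step (by omega) (K_mul_Fo hq' _ (inv_mem hk))
      · rw [mul_assoc, e]
        calc tau j * (tau i * q') = (tau j * tau i * k) * (k⁻¹ * q') := by group
          _ = (tau i * tau (j + 1)) * (k⁻¹ * q') := by rw [hkk]
          _ = _ := by group
    · subst hij
      exact ⟨N, 1, p1, Fo_one N, h, by group⟩
    · obtain ⟨L, p', q', hp', hq', e⟩ := ih (i + 1) (by omega)
      obtain ⟨k, hk, hkk⟩ := swap_K (n := n) hij hi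
      refine ⟨L, p', tau j * (k * q'), hp', ?_, ?_⟩
      · exact Fo.step (by omega) (K_mul_Fo hq' _ hk)
      · rw [mul_assoc, e]
        calc tau j * (tau (i + 1) * q') = (tau j * tau (i + 1)) * q' := by group
          _ = (tau i * tau j * k) * q' := by rw [hkk]
          _ = _ := by group

lemma ore {n N' : ℕ} {q : E} (hq : Fo n N' q) : ∀ {N : ℕ} {p : E}, Fo n N p →
    ∃ L p' q', Fo N L p' ∧ Fo N' L q' ∧ p * p' = q * q' := by
  induction hq with
  | @base n g h =>
    intro N p hp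
    exact ⟨N, 1, g⁻¹ * p, Fo_one N, K_mul_Fo hp _ (inv_mem h), by group⟩
  | @step n N' i q1 hi h ih =>
    intro N p hp
    obtain ⟨L'', p'', q'', hp'', hq'', e1⟩ := ore_tau hp i hi
    obtain ⟨L, a, c, ha, hc, e2⟩ := ih hq''
    refine ⟨L, p'' * a, c, Fo_mul hp'' ha, hc, ?_⟩
    rw [← mul_assoc, e1, mul_assoc, e2, mul_assoc]

theorem ore_thm : S_ORE :=
  ⟨fun _ _ _ _ _ hp hq => Fo_mul hp hq, fun _ _ _ _ _ hp hq => ore hq hp⟩

/-! ### GAM -/

/-- `GamSet r` as a subgroup -/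
def GamS (r : ℕ) : Subgroup E where
  carrier := GamSet r
  one_mem' := ⟨⟨r, 1, 1, Fo_one r, Fo_one r, by group⟩, fun _ _ => rfl⟩
  mul_mem' := by
    rintro g g' ⟨⟨N, p, q, hp, hq, e⟩, hf⟩ ⟨⟨N', p', q', hp', hq', e'⟩, hf'⟩
    obtain ⟨L, a, c, ha, hc, e2⟩ := ore hq' hp
    refine ⟨⟨L, p' * c, q * a, Fo_mul hp' hc, Fo_mul hq ha, ?_⟩, fun i hi => ?_⟩
    · calc g * g' * (p' * c) = g * (g' * p') * c := by group
        _ = g * q' * c := by rw [e']
        _ = g * (q' * c) := by group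
        _ = g * (p * a) := by rw [e2]
        _ = (g * p) * a := by group
        _ = q * a := by rw [e]
    · show g.f (g'.f i) = i
      rw [hf' i hi, hf i hi]
  inv_mem' := by
    rintro g ⟨⟨N, p, q, hp, hq, e⟩, hf⟩
    refine ⟨⟨N, q, p, hq, hp, ?_⟩, fun i hi => ?_⟩
    · rw [← e]; group
    · show g.f⁻¹ i = i
      rw [Equiv.Perm.inv_eq_iff_eq]
      exact (hf i hi).symm

lemma gam_eq (r : ℕ) : (Gam r : Set E) = GamSet r := by
  have h : Gam r = GamS r := Subgroup.closure_eq (GamS r)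
  rw [h]; rfl

theorem gam_thm : S_GAM := gam_eq

lemma mem_gam {r : ℕ} {g : E} : g ∈ Gam r ↔ g ∈ GamSet r := by
  rw [← gam_eq]; rfl

/-! ### INT -/

lemma tg_strictMono (i : ℕ) : StrictMono (tg i) := by
  intro x y h
  unfold tg
  split_ifs <;> linarith

lemma int_main {n N : ℕ} {g : E} (hg : Fo n N g) :
    n ≤ N ∧ StrictMono g.f ∧ (∀ x : ℝ, x ≤ 0 → g.f x = x) ∧
    (∀ x : ℝ, N ≤ x → g.f x = x - N + n) ∧ (∀ k : ℕ, k ≤ n → ∃ l : ℕ, l ≤ N ∧ g.f l = k) ∧
    (N = n → g ∈ K n) := by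
  induction hg with
  | @base n g h =>
    have hf := h.1
    refine ⟨le_rfl, ?_, ?_, ?_, ?_, fun _ => h⟩
    · rw [hf]; exact strictMono_id
    · intro x _; rw [hf]; rfl
    · intro x _; rw [hf]; simp
    · intro k hk; exact ⟨k, hk, by rw [hf]; rfl⟩
  | @step n N i g hi h ih =>
    obtain ⟨h1, h2, h3, h4, h5, -⟩ := ih
    have hiR : (i : ℝ) + 1 ≤ n := by exact_mod_cast hi
    have e : ∀ x, (tau i * g).f x = tg i (g.f x) := fun _ => rfl
    refine ⟨by omega, ?_, ?_, ?_, ?_, fun hN => absurd hN (by omega)⟩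
    · exact (tg_strictMono i).comp h2
    · intro x hx
      rw [e, h3 x hx, tg_of_le]
      exact hx.trans (Nat.cast_nonneg i)
    · intro x hx
      rw [e, h4 x hx, tg_of_ge]
      · push_cast; ring
      · push_cast; linarith
    · intro k hk
      obtain ⟨l, hl, hl2⟩ := h5 (if k ≤ i then k else k + 1) (by split_ifs <;> omega)
      refine ⟨l, hl, ?_⟩
      rw [e, hl2, tg_eq_iff, sg_nat]

lemma int_div {n N : ℕ} {g : E} (hg : Fo n N g) : ∀ a < n,
    (∃ l : ℕ, (a : ℝ) < g.f l ∧ g.f l < a + 1) → Fo (n + 1) N ((tau a)⁻¹ * g) := by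
  induction hg with
  | @base n g h =>
    rintro a ha ⟨l, hl1, hl2⟩
    rw [h.1] at hl1 hl2
    simp only [Equiv.Perm.coe_one, id_eq] at hl1 hl2
    have h1 : a < l := by exact_mod_cast hl1
    have h2 : l < a + 1 := by exact_mod_cast hl2
    omega
  | @step n N j g1 hj h ih =>
    rintro a ha ⟨l, hl1, hl2⟩
    have e : (tau j * g1).f l = tg j (g1.f l) := rfl
    rw [e] at hl1 hl2
    set v := tg j (g1.f l) with hv
    have hv' : g1.f l = sg j v := by rw [hv, sg_tg]
    rcases lt_trichotomy a j with haj | haj | haj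
    · have haj' : (a : ℝ) + 1 ≤ j := by exact_mod_cast haj
      rw [sg_of_le (by linarith)] at hv'
      have h2 := ih a (by omega) ⟨l, by rw [hv']; exact ⟨hl1, hl2⟩⟩
      obtain ⟨k, hk, hkk⟩ := swap_K (n := n) haj hj
      have e2 : (tau a)⁻¹ * (tau j * g1) = tau (j + 1) * (k⁻¹ * ((tau a)⁻¹ * g1)) := by
        have h3 : tau j = tau a * tau (j + 1) * k⁻¹ * (tau a)⁻¹ := by rw [hkk]; group
        rw [h3]; group
      rw [e2]
      exact Fo.step (by omega) (K_mul_Fo h2 _ (inv_mem hk))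
    · subst haj
      rw [inv_mul_cancel_left]
      exact h
    · have haj' : (j : ℝ) + 1 ≤ a := by exact_mod_cast haj
      rw [sg_of_ge (by linarith)] at hv'
      have h2 := ih (a + 1) (by omega) ⟨l, by rw [hv']; push_cast; constructor <;> linarith⟩
      obtain ⟨k, hk, hkk⟩ := swap_K (n := n) haj ha
      have e2 : (tau a)⁻¹ * (tau j * g1) = tau j * (k * ((tau (a + 1))⁻¹ * g1)) := by
        have h3 : tau j = tau a * tau j * k * (tau (a + 1))⁻¹ := by rw [← hkk]; group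
        have h4 : (tau a)⁻¹ * (tau j * g1) =
          (tau a)⁻¹ * ((tau a * tau j * k * (tau (a + 1))⁻¹) * g1) := by rw [← h3]
        rw [h4]; group
      rw [e2]
      exact Fo.step (by omega) (K_mul_Fo h2 _ hk)

lemma int_pt {n N a : ℕ} {g : E} (hg : Fo (n + 1) N g) (ha : a < n) :
    ∃ l : ℕ, (a : ℝ) < (tau a * g).f l ∧ (tau a * g).f l < a + 1 := by
  obtain ⟨-, -, -, -, h5, -⟩ := int_main hg
  obtain ⟨l, -, hl⟩ := h5 (a + 1) (by omega)
  refine ⟨l, ?_⟩
  have e : (tau a * g).f l = tg a (g.f l) := rfl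
  rw [e, hl]
  unfold tg
  push_cast
  rw [if_neg (by linarith), if_pos (by linarith)]
  constructor <;> linarith

theorem int_thm : S_INT :=
  ⟨fun _ _ _ hg => int_main hg, fun _ _ a _ hg ha hl => int_div hg a ha hl,
    fun _ _ _ _ hg ha => int_pt hg ha⟩

end Pool.Agent.Helper6.OL
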