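import Pool.Agent.Helper40.OL.Spec

/-! # OL: part SWAP -/

set_option autoImplicit false

namespace Pool.Agent.Helper6.OL

open Pool.Agent.Helper40.OL

/-! ### general facts on `tg`, `sg`, `tau` -/

@[simp] lemma tau_f (i : ℕ) : (tau i).f = tauP i := rfl
@[simp] lemma tau_m (i : ℕ) (s t : ℝ) : (tau i).m s t = 0 := rfl
lemma tau_d (i : ℕ) (s : ℝ) :
    (tau i).d s = (if s = i then 1 else 0) - (if s = i + 1 then 1 else 0) := rfl

lemma sg_eq_iff (i : ℕ) (s v : ℝ) : sg i s = v ↔ s = tg i v := by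
  constructor
  · rintro rfl; rw [tg_sg]
  · rintro rfl; rw [sg_tg]

lemma tg_eq_iff (i : ℕ) (s v : ℝ) : tg i s = v ↔ s = sg i v := by
  constructor
  · rintro rfl; rw [sg_tg]
  · rintro rfl; rw [tg_sg]

/-- `σ i` on the integers -/
lemma sg_nat (i k : ℕ) : sg i (k : ℝ) = ((if k ≤ i then k else k + 1 : ℕ) : ℝ) := by
  unfold sg
  by_cases h : k ≤ i
  · have h1 : (k : ℝ) ≤ i := by exact_mod_cast h
    rw [if_pos h1, if_pos h]
  · have h1 : ¬ (k : ℝ) ≤ i := by exact_mod_cast h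
    rw [if_neg h1, if_neg h]
    by_cases h2 : k ≤ i + 1
    · have h3 : (k : ℝ) ≤ i + 1 := by exact_mod_cast h2
      rw [if_pos h3]
      have h4 : k = i + 1 := by omega
      subst h4
      push_cast; ring
    · have h3 : ¬ (k : ℝ) ≤ i + 1 := by
        intro hc; exact h2 (by exact_mod_cast hc)
      rw [if_neg h3]
      push_cast; ring

lemma natLe_of_tg {n i : ℕ} {s : ℝ} (h : NatLe n (tg i s)) : NatLe (n + 1) s := by
  obtain ⟨k, hk, e⟩ := h
  rw [tg_eq_iff, sg_nat] at e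
  refine ⟨_, ?_, e⟩
  split_ifs <;> omega

lemma sg_of_le {i : ℕ} {x : ℝ} (h : x ≤ i) : sg i x = x := by
  unfold sg; rw [if_pos h]

lemma tg_of_le {i : ℕ} {x : ℝ} (h : x ≤ i) : tg i x = x := by
  unfold tg; rw [if_pos h]

lemma tg_of_ge {i : ℕ} {x : ℝ} (h : (i : ℝ) + 2 ≤ x) : tg i x = x - 1 := by
  unfold tg
  rw [if_neg (by linarith)]
  rcases eq_or_lt_of_le h with h1 | h1
  · rw [if_pos h1.ge]; linarith
  · rw [if_neg (by linarith)]

lemma sg_of_ge {i : ℕ} {x : ℝ} (h : (i : ℝ) + 1 ≤ x) : sg i x = x + 1 := by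
  unfold sg
  rw [if_neg (by linarith)]
  rcases eq_or_lt_of_le h with h1 | h1
  · rw [if_pos h1.ge]; linarith
  · rw [if_neg (by linarith)]

/-- conjugation by `τ i` of an element with trivial `f` and `d` -/
lemma conj_tau (i : ℕ) (k : E) (hf : k.f = 1) (hd : ∀ s, k.d s = 0) :
    ((tau i)⁻¹ * k * tau i).f = 1 ∧ (∀ s, ((tau i)⁻¹ * k * tau i).d s = 0) ∧
    ∀ s t, ((tau i)⁻¹ * k * tau i).m s t = k.m (tg i s) (tg i t) := by
  refine ⟨?_, fun s => ?_, fun s t => ?_⟩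
  · simp [hf]
  · simp [hf, hd]
  · simp [hf, hd]

lemma conj_K {n : ℕ} (i : ℕ) {k : E} (hk : k ∈ K n) : (tau i)⁻¹ * k * tau i ∈ K (n + 1) := by
  obtain ⟨hf, hd, hm⟩ := hk
  obtain ⟨h1, h2, h3⟩ := conj_tau i k hf hd
  refine ⟨h1, h2, fun s t hst => ?_⟩
  rw [h3] at hst
  obtain ⟨h4, h5⟩ := hm _ _ hst
  exact ⟨natLe_of_tg h4, natLe_of_tg h5⟩

lemma perm_swap {i j : ℕ} (hij : i < j) : tauP i * tauP (j + 1) = tauP j * tauP i := by
  have h1 : (i : ℝ) + 1 ≤ j := by exact_mod_cast hij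
  ext x
  show tg i (tg (j + 1) x) = tg j (tg i x)
  unfold tg
  push_cast
  split_ifs <;> linarith

lemma PQ_d {i j : ℕ} (hij : i < j) (s : ℝ) :
    (tau j * tau i).d s = (tau i * tau (j + 1)).d s := by
  have h1 : (i : ℝ) + 1 ≤ j := by exact_mod_cast hij
  simp only [E.mul_d, tau_f, tauP_inv_apply, tau_d]
  simp only [sg_eq_iff]
  rw [tg_of_le (i := j) (x := i) (by linarith), tg_of_le (i := j) (x := (i : ℝ) + 1) (by linarith)]
  rw [tg_of_ge (i := i) (x := ((j + 1 : ℕ) : ℝ)) (by push_cast; linarith),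
    tg_of_ge (i := i) (x := ((j + 1 : ℕ) : ℝ) + 1) (by push_cast; linarith)]
  push_cast
  rw [show (j : ℝ) + 1 - 1 = j by ring, show (j : ℝ) + 1 + 1 - 1 = j + 1 by ring]
  ring

lemma P_m {i j : ℕ} (hij : i < j) (s t : ℝ) (h : (tau j * tau i).m s t ≠ 0) :
    (s = j ∨ s = j + 1) ∧ (t = i ∨ t = i + 1) := by
  have h1 : (i : ℝ) + 1 ≤ j := by exact_mod_cast hij
  simp only [E.mul_m, tau_f, tauP_inv_apply, tau_d, tau_m, sg_eq_iff] at h
  rw [tg_of_le (i := j) (x := i) (by linarith),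
    tg_of_le (i := j) (x := (i : ℝ) + 1) (by linarith)] at h
  constructor
  · by_contra hc
    push Not at hc
    apply h
    rw [if_neg hc.1, if_neg hc.2]; simp
  · by_contra hc
    push Not at hc
    apply h
    rw [if_neg hc.1, if_neg hc.2]; simp

lemma Q_m {i j : ℕ} (hij : i < j) (s t : ℝ) (h : (tau i * tau (j + 1)).m s t ≠ 0) :
    (s = i ∨ s = i + 1) ∧ (t = j ∨ t = j + 1) := by
  have h1 : (i : ℝ) + 1 ≤ j := by exact_mod_cast hij
  simp only [E.mul_m, tau_f, tauP_inv_apply, tau_d, tau_m, sg_eq_iff] at h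
  rw [tg_of_ge (i := i) (x := ((j + 1 : ℕ) : ℝ)) (by push_cast; linarith),
    tg_of_ge (i := i) (x := ((j + 1 : ℕ) : ℝ) + 1) (by push_cast; linarith)] at h
  push_cast at h
  rw [show (j : ℝ) + 1 - 1 = j by ring, show (j : ℝ) + 1 + 1 - 1 = j + 1 by ring] at h
  constructor
  · by_contra hc
    push Not at hc
    apply h
    rw [if_neg hc.1, if_neg hc.2]; simp
  · by_contra hc
    push Not at hc
    apply h
    rw [if_neg hc.1, if_neg hc.2]; simp

lemma P_pt {i j : ℕ} (hij : i < j) (s : ℝ)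
    (h : (tau j * tau i).f s = i ∨ (tau j * tau i).f s = i + 1 ∨ (tau j * tau i).f s = j ∨
      (tau j * tau i).f s = j + 1) : s = i ∨ s = i + 2 ∨ s = j + 1 ∨ s = j + 3 := by
  have h1 : (i : ℝ) + 1 ≤ j := by exact_mod_cast hij
  have e : (tau j * tau i).f s = tg j (tg i s) := rfl
  rw [e] at h
  simp only [tg_eq_iff] at h
  rcases h with h | h | h | h
  · rw [sg_of_le (i := j) (by linarith), sg_of_le (i := i) le_rfl] at h
    exact Or.inl h
  · rw [sg_of_le (i := j) (by linarith), sg_of_ge (i := i) le_rfl] at h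
    exact Or.inr (Or.inl (by linarith))
  · rw [sg_of_le (i := j) le_rfl, sg_of_ge (i := i) (by linarith)] at h
    exact Or.inr (Or.inr (Or.inl h))
  · rw [sg_of_ge (i := j) le_rfl, sg_of_ge (i := i) (by linarith)] at h
    exact Or.inr (Or.inr (Or.inr (by linarith)))

lemma swap_elt {i j : ℕ} (hij : i < j) :
    ((tau j * tau i)⁻¹ * (tau i * tau (j + 1))).f = 1 ∧
    (∀ s, ((tau j * tau i)⁻¹ * (tau i * tau (j + 1))).d s = 0) ∧
    ∀ s t : ℝ, ((tau j * tau i)⁻¹ * (tau i * tau (j + 1))).m s t ≠ 0 →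
      (s = i ∨ s = i + 2 ∨ s = j + 1 ∨ s = j + 3) ∧ (t = i ∨ t = i + 2 ∨ t = j + 1 ∨ t = j + 3) := by
  have hpf : (tau i * tau (j + 1)).f = (tau j * tau i).f := perm_swap hij
  set P := tau j * tau i with hP
  set Q := tau i * tau (j + 1) with hQ
  have hd : ∀ s, P.d s = Q.d s := PQ_d hij
  refine ⟨?_, fun s => ?_, fun s t h => ?_⟩
  · simp [hpf]
  · simp [hd]
  · have e : (P⁻¹ * Q).m s t = Q.m (P.f s) (P.f t) - P.m (P.f s) (P.f t) := by
      simp only [E.mul_m, E.inv_m, E.inv_d, E.inv_f, inv_inv, hd]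
      ring
    rw [e] at h
    have h2 : Q.m (P.f s) (P.f t) ≠ 0 ∨ P.m (P.f s) (P.f t) ≠ 0 := by
      by_contra hc
      push Not at hc
      apply h
      rw [hc.1, hc.2, sub_zero]
    rcases h2 with h2 | h2
    · obtain ⟨a1, a2⟩ := Q_m hij _ _ h2
      refine ⟨P_pt hij s ?_, P_pt hij t ?_⟩
      · rcases a1 with a | a
        · exact Or.inl a
        · exact Or.inr (Or.inl a)
      · rcases a2 with a | a
        · exact Or.inr (Or.inr (Or.inl a))
        · exact Or.inr (Or.inr (Or.inr a))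
    · obtain ⟨a1, a2⟩ := P_m hij _ _ h2
      refine ⟨P_pt hij s ?_, P_pt hij t ?_⟩
      · rcases a1 with a | a
        · exact Or.inr (Or.inr (Or.inl a))
        · exact Or.inr (Or.inr (Or.inr a))
      · rcases a2 with a | a
        · exact Or.inl a
        · exact Or.inr (Or.inl a)

lemma swap_K {n i j : ℕ} (hij : i < j) (hj : j < n) :
    ∃ k ∈ K (n + 2), tau i * tau (j + 1) = tau j * tau i * k := by
  obtain ⟨h1, h2, h3⟩ := swap_elt hij
  refine ⟨(tau j * tau i)⁻¹ * (tau i * tau (j + 1)), ⟨h1, h2, fun s t h => ?_⟩, by group⟩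
  obtain ⟨a1, a2⟩ := h3 s t h
  have key : ∀ x : ℝ, (x = i ∨ x = i + 2 ∨ x = j + 1 ∨ x = j + 3) → NatLe (n + 2) x := by
    rintro x (rfl | rfl | rfl | rfl)
    · exact ⟨i, by omega, rfl⟩
    · exact ⟨i + 2, by omega, by push_cast; ring⟩
    · exact ⟨j + 1, by omega, by push_cast; ring⟩
    · exact ⟨j + 3, by omega, by push_cast; ring⟩
  exact ⟨key s a1, key t a2⟩

theorem swap_thm : S_SWAP :=
  ⟨fun _ i _ hk => conj_K i hk, fun _ _ hij => swap_elt hij, fun _ _ _ hij hj => swap_K hij hj⟩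

end Pool.Agent.Helper6.OL
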