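import Pool.Agent.Helper6.OL.ORE

/-! # OL: part Y -/

set_option autoImplicit false

namespace Pool.Agent.Helper6.OL

open Pool.Agent.Helper40.OL

lemma K_conj_Fo {n N : ℕ} {p : E} (hp : Fo n N p) : ∀ k ∈ K n, p⁻¹ * k * p ∈ K N := by
  induction hp with
  | base h => exact fun k hk => mul_mem (mul_mem (inv_mem h) hk) h
  | @step n N i g hi h ih =>
    intro k hk
    have e : (tau i * g)⁻¹ * k * (tau i * g) = g⁻¹ * ((tau i)⁻¹ * k * tau i) * g := by group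
    rw [e]
    exact ih _ (conj_K i hk)

lemma Y_zero {r : ℕ} (hr : 1 ≤ r) : Y r 0 = ∅ := by
  rw [Set.eq_empty_iff_forall_notMem]
  rintro y ⟨-, h⟩
  obtain ⟨l, hl, e⟩ := h 0 (by omega)
  obtain ⟨l', hl', e'⟩ := h 1 hr
  have h1 : l = 0 := by omega
  have h2 : l' = 0 := by omega
  subst h1 h2
  rw [e] at e'
  norm_num at e'

lemma Y_one (r : ℕ) : (1 : E) ∈ Y r r :=
  ⟨⟨r, 1, 1, Fo_one r, Fo_one r, by group⟩, fun i hi => ⟨i, hi, rfl⟩⟩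

lemma Y_mul_K {r n : ℕ} {y : E} (hy : y ∈ Y r n) {k : E} (hk : k ∈ K n) : y * k ∈ Y r n := by
  obtain ⟨⟨N, p, q, hp, hq, e⟩, hf⟩ := hy
  refine ⟨⟨N, k⁻¹ * p, q, K_mul_Fo hp _ (inv_mem hk), hq, ?_⟩, fun i hi => ?_⟩
  · rw [← e]; group
  · obtain ⟨l, hl, e2⟩ := hf i hi
    refine ⟨l, hl, ?_⟩
    show y.f (k.f l) = i
    rw [hk.1]; exact e2

lemma Y_mul_tau {r n : ℕ} {y : E} (hy : y ∈ Y r n) {i : ℕ} (hi : i < n) :
    y * tau i ∈ Y r (n + 1) := by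
  obtain ⟨⟨N, p, q, hp, hq, e⟩, hf⟩ := hy
  obtain ⟨L, a, c, ha, hc, e2⟩ := ore hp (Fo_tau hi)
  refine ⟨⟨L, a, q * c, ha, Fo_mul hq hc, ?_⟩, fun j hj => ?_⟩
  · calc y * tau i * a = y * (tau i * a) := by group
      _ = y * (p * c) := by rw [e2]
      _ = (y * p) * c := by group
      _ = q * c := by rw [e]
  · obtain ⟨l, hl, e3⟩ := hf j hj
    refine ⟨if l ≤ i then l else l + 1, by split_ifs <;> omega, ?_⟩
    show y.f (tg i _) = j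
    rw [← sg_nat, tg_sg, e3]

lemma gam_mul_Y {r n : ℕ} {y : E} (hy : y ∈ Y r n) {g : E} (hg : g ∈ Gam r) : g * y ∈ Y r n := by
  obtain ⟨⟨N, p, q, hp, hq, e⟩, hf⟩ := hy
  obtain ⟨⟨N', p', q', hp', hq', e'⟩, hf'⟩ := mem_gam.1 hg
  obtain ⟨L, a, c, ha, hc, e2⟩ := ore hq hp'
  refine ⟨⟨L, p * c, q' * a, Fo_mul hp hc, Fo_mul hq' ha, ?_⟩, fun i hi => ?_⟩
  · calc g * y * (p * c) = g * (y * p) * c := by group
      _ = g * (q * c) := by rw [e]; group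
      _ = g * (p' * a) := by rw [e2]
      _ = (g * p') * a := by group
      _ = q' * a := by rw [e']
  · obtain ⟨l, hl, e3⟩ := hf i hi
    refine ⟨l, hl, ?_⟩
    show g.f (y.f l) = i
    rw [e3, hf' i hi]

lemma Y_fiber {r n : ℕ} {y y' : E} (hy : y ∈ Y r n) (hy' : y' ∈ Y r n)
    (h : ∀ i : ℕ, i ≤ r → ∃ l : ℕ, y.f l = i ∧ y'.f l = i) : y' * y⁻¹ ∈ Gam r := by
  obtain ⟨⟨N, p, q, hp, hq, e⟩, hf⟩ := hy
  obtain ⟨⟨N', p', q', hp', hq', e'⟩, hf'⟩ := hy'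
  obtain ⟨L, a, c, ha, hc, e2⟩ := ore hp' hp
  rw [mem_gam]
  refine ⟨⟨L, q * a, q' * c, Fo_mul hq ha, Fo_mul hq' hc, ?_⟩, fun i hi => ?_⟩
  · calc y' * y⁻¹ * (q * a) = y' * y⁻¹ * ((y * p) * a) := by rw [e]
      _ = y' * (p * a) := by group
      _ = y' * (p' * c) := by rw [e2]
      _ = (y' * p') * c := by group
      _ = q' * c := by rw [e']
  · obtain ⟨l, e3, e4⟩ := h i hi
    show y'.f (y.f⁻¹ i) = i
    have h5 : y.f⁻¹ (i : ℝ) = l := by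
      rw [Equiv.Perm.inv_eq_iff_eq]; exact e3.symm
    rw [h5, e4]

lemma Y_common {r n n' : ℕ} {y y' : E} (hy : y ∈ Y r n) (hy' : y' ∈ Y r n') :
    ∃ N p p', Fo n N p ∧ Fo n' N p' ∧ y * p = y' * p' := by
  obtain ⟨⟨N, p, q, hp, hq, e⟩, -⟩ := hy
  obtain ⟨⟨N', p', q', hp', hq', e'⟩, -⟩ := hy'
  obtain ⟨L, a, c, ha, hc, e2⟩ := ore hq' hq
  refine ⟨L, p * a, p' * c, Fo_mul hp ha, Fo_mul hp' hc, ?_⟩
  rw [← mul_assoc, e, e2, ← mul_assoc, e']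

lemma Y_conj_K {r n : ℕ} {y : E} (hy : y ∈ Y r n) {k : E} (hk : k ∈ K n) :
    y * k * y⁻¹ ∈ Gam r := by
  obtain ⟨⟨N, p, q, hp, hq, e⟩, hf⟩ := hy
  rw [mem_gam]
  refine ⟨⟨N, q, q * (p⁻¹ * k * p), hq, Fo_mul_K hq (K_conj_Fo hp k hk), ?_⟩, fun i hi => ?_⟩
  · rw [← e]; group
  · show y.f (k.f (y.f⁻¹ i)) = i
    rw [hk.1]
    simp

lemma Y_mono {r n : ℕ} {y : E} (hy : y ∈ Y r n) :
    StrictMono y.f ∧ y.f 0 = 0 ∧ y.f n = r ∧ r ≤ n := by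
  obtain ⟨⟨N, p, q, hp, hq, e⟩, hf⟩ := hy
  obtain ⟨-, p2, p3, p4, -, -⟩ := int_main hp
  obtain ⟨-, q2, q3, q4, -, -⟩ := int_main hq
  have e1 : ∀ x, y.f (p.f x) = q.f x := fun x => by
    have : (y * p).f x = q.f x := by rw [e]
    exact this
  have hm : StrictMono y.f := by
    intro a b hab
    obtain ⟨a', rfl⟩ := p.f.surjective a
    obtain ⟨b', rfl⟩ := p.f.surjective b
    rw [e1, e1]
    exact q2 (p2.lt_iff_lt.1 hab)
  refine ⟨hm, ?_, ?_, ?_⟩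
  · have h1 := e1 0
    rwa [p3 0 le_rfl, q3 0 le_rfl] at h1
  · have h1 := e1 N
    rw [p4 N le_rfl, q4 N le_rfl] at h1
    simpa using h1
  · choose! l hl hl2 using hf
    have hinj : ∀ a ∈ Finset.range (r + 1), ∀ b ∈ Finset.range (r + 1), l a = l b → a = b := by
      intro a ha b hb hab
      have h1 := hl2 a (by have := Finset.mem_range.1 ha; omega)
      have h2 := hl2 b (by have := Finset.mem_range.1 hb; omega)
      rw [hab, h2] at h1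
      exact_mod_cast h1.symm
    have := Finset.card_le_card_of_injOn (s := Finset.range (r + 1)) (t := Finset.range (n + 1)) l
      (fun a ha => by
        have h1 := hl a (by have := Finset.mem_range.1 (Finset.mem_coe.1 ha); omega)
        exact Finset.mem_coe.2 (Finset.mem_range.2 (by omega)))
      (fun a ha b hb hab => hinj a (Finset.mem_coe.1 ha) b (Finset.mem_coe.1 hb) hab)
    rw [Finset.card_range, Finset.card_range] at this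
    omega

lemma Y_mul_inv {r n N : ℕ} {y : E} (hy : y ∈ Y r N) {p : E} (hp : Fo n N p)
    (h : ∀ i : ℕ, i ≤ r → ∃ l : ℕ, l ≤ n ∧ (y * p⁻¹).f l = i) : y * p⁻¹ ∈ Y r n := by
  obtain ⟨⟨L, p1, q1, hp1, hq1, e⟩, -⟩ := hy
  refine ⟨⟨L, p * p1, q1, Fo_mul hp hp1, hq1, ?_⟩, h⟩
  rw [← e]; group

theorem y_thm : S_Y := by
  intro r hr
  exact ⟨Y_zero hr, ⟨1, Y_one r⟩, fun _ _ hy _ hk => Y_mul_K hy hk,
    fun _ _ hy _ hi => Y_mul_tau hy hi, fun _ _ hy _ hg => gam_mul_Y hy hg,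
    fun _ _ hy _ hy' h => Y_fiber hy hy' h, fun _ _ _ hy _ hy' => Y_common hy hy',
    fun _ _ hy _ hk => Y_conj_K hy hk, fun _ _ hy => Y_mono hy,
    fun _ _ _ hy _ hp h => Y_mul_inv hy hp h⟩

end Pool.Agent.Helper6.OL
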